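import Pool.Agent.Y816.PD.UniL
import Pool.Agent.H305R2.MertensE

/-!
# Twin almost primes between consecutive cubes with restricted digits

Let `g ≥ 2` be a base, `n` a large integer, and let the last `K` digits of the integers `m` between `n³` and `(n + 1)³` be restricted
to arbitrary sets `A 0, …, A (K - 1)` of digits; here `n ≤ g ^ (E K)` and `g ^ K ≤ n²`, so one may restrict all the digits but the
first third of them (which are essentially determined by `n`). Nothing is assumed about the sets `A i` except that they are not too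
small on average: `|A 0| ⋯ |A (K - 1)| ≥ exp (- c K) g ^ K`, where `c > 0` does not depend on the base.

The number of the `m` between `n³` and `(n + 1)³` with these digits for which `m` and `m + 2` have at most `r` prime factors, all
larger than `n ^ (1 / r)`, is at least `κ n² / (log n)²` times `|A 0| ⋯ |A (K - 1)| / g ^ K` (unless there is an obvious obstruction:
no digit `d` in `A 0` has `d (d + 2)` prime to `g`). The number of the pairs of twin primes between `n³` and `(n + 1)³` with these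
digits is at most `C n² / (log n)²` times `|A 0| ⋯ |A (K - 1)| / g ^ K`. The constants do not depend on `n`, `K` and the sets `A i`.

Proof. The theorem on almost prime values of polynomials at integers with restricted digits, uniform in the polynomial, of the
starting library (`Pool.Agent.Y816.PD.uni_fun`), applied to the polynomials `(a g ^ K + X) (a g ^ K + X + 2)`, and the third theorem
of Mertens of the starting library.
-/

set_option autoImplicit false

namespace Pool.Agent.Results.MP_d610d0_nt.RestrictedDigits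

open Filter Finset

/-- The last `K` digits of `m` in base `g` (counted from the right, beginning with `0`) belong to `A 0, …, A (K - 1)`. -/
def HasDigits (g K : ℕ) (A : ℕ → Finset ℕ) (m : ℕ) : Prop := ∀ i < K, m / g ^ i % g ∈ A i

/-- The number of the choices of `K` digits in the sets `A i`. -/
def choices (K : ℕ) (A : ℕ → Finset ℕ) : ℕ := ∏ i ∈ range K, (A i).card

/-- `m` and `m + 2` are prime. -/
def Twin (m : ℕ) : Prop := m.Prime ∧ (m + 2).Prime

/-- `m` has at most `r` prime factors (counted with multiplicity), all larger than `n ^ (1 / r)`. -/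
def AlmostPrime (n r m : ℕ) : Prop := m.primeFactorsList.length ≤ r ∧ ∀ p : ℕ, p.Prime → p ∣ m → n < p ^ r

open Classical in
/-- The number of the `m` with `n ^ 3 < m < m + 2 < (n + 1) ^ 3` whose last `K` digits belong to the sets `A i` and which have the
property `P`. -/
noncomputable def count (n g K : ℕ) (A : ℕ → Finset ℕ) (P : ℕ → Prop) : ℕ :=
  ((Ioo (n ^ 3) ((n + 1) ^ 3)).filter fun m => m + 2 < (n + 1) ^ 3 ∧ HasDigits g K A m ∧ P m).card

/-! ### The density of twin almost primes -/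

/-- the number of the zeros of `m (m + 2)` modulo `p` -/
def om (p : ℕ) : ℕ := if p = 2 then 1 else 2

/-- The product of `1 - ω(p) / p` over the primes `p ≤ x`. -/
noncomputable def V (x : ℕ) : ℝ := ∏ p ∈ (Icc 1 x).filter Nat.Prime, (1 - (om p : ℝ) / p)

noncomputable def P1 (x : ℕ) : ℝ := ∏ p ∈ (Icc 1 x).filter Nat.Prime, (1 - (p : ℝ)⁻¹)

lemma P1_bounds : ∃ c C : ℝ, 0 < c ∧ 0 < C ∧ ∀ᶠ x : ℕ in atTop, c / Real.log x ≤ P1 x ∧ P1 x ≤ C / Real.log x := by
  have h := Pool.Agent.H305R2.mertens_three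
  obtain ⟨γ, hγ⟩ : ∃ γ : ℝ, γ = Real.exp Real.eulerMascheroniConstant := ⟨_, rfl⟩
  rw [← hγ] at h
  have hγ0 : 0 < γ := by rw [hγ]; exact Real.exp_pos _
  have h1 := (h.eventually (lt_mem_nhds (show γ / 2 < γ by linarith))).and
    (h.eventually (gt_mem_nhds (show γ < 2 * γ by linarith)))
  refine ⟨1 / (2 * γ), 2 / γ, by positivity, by positivity, ?_⟩
  filter_upwards [h1, eventually_ge_atTop 3] with x hx hx3
  obtain ⟨h2, h3⟩ := hx
  have hlog : 0 < Real.log x := Real.log_pos (by exact_mod_cast (show 1 < x by omega))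
  have hP : ∏ p ∈ (Icc 1 x).filter Nat.Prime, (1 - (p : ℝ)⁻¹)⁻¹ = (P1 x)⁻¹ := by
    unfold P1
    rw [prod_inv_distrib]
  have hP0 : 0 < P1 x := by
    unfold P1
    refine prod_pos fun p hp => ?_
    have h4 : (1 : ℝ) < p := by exact_mod_cast (mem_filter.1 hp).2.one_lt
    have := inv_lt_one_of_one_lt₀ h4
    linarith
  rw [hP] at h2 h3
  rw [lt_div_iff₀ hlog] at h2
  rw [div_lt_iff₀ hlog] at h3
  constructor
  · rw [div_le_iff₀ hlog, div_le_iff₀ (by positivity)]
    have h5 : (P1 x)⁻¹ * P1 x = 1 := inv_mul_cancel₀ hP0.ne'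
    nlinarith [mul_lt_mul_of_pos_right h3 hP0]
  · rw [le_div_iff₀ hlog, le_div_iff₀ hγ0]
    have h5 : (P1 x)⁻¹ * P1 x = 1 := inv_mul_cancel₀ hP0.ne'
    nlinarith [mul_lt_mul_of_pos_right h2 hP0]

/-- telescoping product -/
lemma tele (x : ℕ) : (1 : ℝ) / 2 ≤ ∏ k ∈ Icc 3 x, (1 - 1 / ((k : ℝ) - 1) ^ 2) := by
  have key : ∀ x : ℕ, 2 ≤ x → ∏ k ∈ Icc 3 x, (1 - 1 / ((k : ℝ) - 1) ^ 2) = (x : ℝ) / (2 * ((x : ℝ) - 1)) := by
    intro x hx
    induction x, hx using Nat.le_induction with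
    | base => norm_num
    | succ x hx ih =>
      rw [← Finset.insert_Icc_right_eq_Icc_add_one (by omega), prod_insert (by simp), ih]
      have h1 : (1 : ℝ) < x := by exact_mod_cast (show 1 < x by omega)
      have h2 : (x : ℝ) - 1 ≠ 0 := by linarith
      have h3 : (x : ℝ) ≠ 0 := by linarith
      push_cast
      rw [show (x : ℝ) + 1 - 1 = x by ring]
      field_simp
      ring
  rcases Nat.lt_or_ge x 3 with h | h
  · rw [Icc_eq_empty (by omega)]
    norm_num
  · rw [key x (by omega)]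
    have h1 : (2 : ℝ) < x := by exact_mod_cast h
    rw [div_le_div_iff₀ (by norm_num) (by linarith)]
    linarith

lemma V_bounds (x : ℕ) (hx : 2 ≤ x) : P1 x ^ 2 ≤ V x ∧ V x ≤ 2 * P1 x ^ 2 := by
  obtain ⟨T, hT⟩ : ∃ T, T = (Icc 3 x).filter Nat.Prime := ⟨_, rfl⟩
  have hs : (Icc 1 x).filter Nat.Prime = insert 2 T := by
    ext p
    rw [hT]
    simp only [mem_filter, mem_Icc, mem_insert]
    constructor
    · rintro ⟨⟨h1, h2⟩, h3⟩
      have := h3.two_le
      by_cases h4 : p = 2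
      · exact Or.inl h4
      · exact Or.inr ⟨⟨by omega, h2⟩, h3⟩
    · rintro (h | ⟨⟨h1, h2⟩, h3⟩)
      · subst h
        exact ⟨⟨by omega, hx⟩, Nat.prime_two⟩
      · exact ⟨⟨by omega, h2⟩, h3⟩
  have h2T : 2 ∉ T := by
    rw [hT]
    simp
  have hV : V x = 1 / 2 * ∏ p ∈ T, (1 - 2 / (p : ℝ)) := by
    unfold V
    rw [hs, prod_insert h2T]
    congr 1
    · norm_num [om]
    · refine prod_congr rfl fun p hp => ?_
      have : p ≠ 2 := fun h => h2T (h ▸ hp)
      rw [om, if_neg this]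
      norm_num
  have hP : P1 x = 1 / 2 * ∏ p ∈ T, (1 - (p : ℝ)⁻¹) := by
    unfold P1
    rw [hs, prod_insert h2T]
    congr 1
    norm_num
  have hT3 : ∀ p ∈ T, (3 : ℝ) ≤ p := by
    intro p hp
    rw [hT, mem_filter, mem_Icc] at hp
    exact_mod_cast hp.1.1
  have hfac : ∀ p ∈ T, (1 - 2 / (p : ℝ)) = (1 - (p : ℝ)⁻¹) ^ 2 * (1 - 1 / ((p : ℝ) - 1) ^ 2) := by
    intro p hp
    have h3 := hT3 p hp
    have h4 : (p : ℝ) - 1 ≠ 0 := by linarith
    have h5 : (p : ℝ) ≠ 0 := by linarith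
    field_simp
    ring
  obtain ⟨Q, hQ⟩ : ∃ Q : ℝ, Q = ∏ p ∈ T, (1 - (p : ℝ)⁻¹) := ⟨_, rfl⟩
  obtain ⟨R, hR⟩ : ∃ R : ℝ, R = ∏ p ∈ T, (1 - 1 / ((p : ℝ) - 1) ^ 2) := ⟨_, rfl⟩
  have hprod : ∏ p ∈ T, (1 - 2 / (p : ℝ)) = Q ^ 2 * R := by
    rw [hQ, hR, ← prod_pow, ← prod_mul_distrib]
    exact prod_congr rfl hfac
  have h01 : ∀ k : ℕ, 3 ≤ k → 0 ≤ 1 - 1 / ((k : ℝ) - 1) ^ 2 ∧ 1 - 1 / ((k : ℝ) - 1) ^ 2 ≤ 1 := by
    intro k hk
    have h3 : (3 : ℝ) ≤ k := by exact_mod_cast hk
    have h4 : (1 : ℝ) ≤ ((k : ℝ) - 1) ^ 2 := by nlinarith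
    have h5 : 1 / ((k : ℝ) - 1) ^ 2 ≤ 1 := by
      rw [div_le_one (by linarith)]
      exact h4
    have h6 : 0 ≤ 1 / ((k : ℝ) - 1) ^ 2 := by positivity
    constructor <;> linarith
  have hR1 : R ≤ 1 := by
    rw [hR]
    refine prod_le_one (fun p hp => (h01 p ?_).1) (fun p hp => (h01 p ?_).2) <;>
    exact_mod_cast hT3 p hp
  have hR2 : 1 / 2 ≤ R := by
    refine (tele x).trans ?_
    rw [hR, hT]
    exact prod_le_prod_of_subset_of_le_one (filter_subset _ _) (fun k hk => (h01 k (mem_Icc.1 hk).1).1)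
      (fun k hk _ => (h01 k (mem_Icc.1 hk).1).2)
  rw [hV, hP, ← hQ, hprod]
  constructor
  · nlinarith [sq_nonneg Q]
  · nlinarith [sq_nonneg Q]

lemma V_log : ∃ c C : ℝ, 0 < c ∧ 0 < C ∧ ∀ᶠ x : ℕ in atTop, c / Real.log x ^ 2 ≤ V x ∧ V x ≤ C / Real.log x ^ 2 := by
  obtain ⟨c, C, hc, hC, h⟩ := P1_bounds
  refine ⟨c ^ 2, 2 * C ^ 2, by positivity, by positivity, ?_⟩
  filter_upwards [h, eventually_ge_atTop 3] with x hx hx3
  obtain ⟨h1, h2⟩ := hx
  obtain ⟨h3, h4⟩ := V_bounds x (by omega)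
  have hlog : 0 < Real.log x := Real.log_pos (by exact_mod_cast (show 1 < x by omega))
  have h5 : 0 < c / Real.log x := by positivity
  constructor
  · calc c ^ 2 / Real.log x ^ 2 = (c / Real.log x) ^ 2 := by rw [div_pow]
      _ ≤ P1 x ^ 2 := pow_le_pow_left₀ h5.le h1 2
      _ ≤ V x := h3
  · calc V x ≤ 2 * P1 x ^ 2 := h4
      _ ≤ 2 * (C / Real.log x) ^ 2 := by
          have := pow_le_pow_left₀ (h5.le.trans h1) h2 2
          linarith
      _ = 2 * C ^ 2 / Real.log x ^ 2 := by rw [div_pow]; ring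

/-! ### The zeros modulo primes -/

lemma card_range_zmod (p : ℕ) [Fact p.Prime] (Q : ZMod p → Prop) [DecidablePred Q] (R : ℕ → Prop) [DecidablePred R]
    (h : ∀ n : ℕ, R n ↔ Q (n : ZMod p)) : ((range p).filter R).card = (univ.filter Q).card := by
  apply card_nbij' (fun n : ℕ => (n : ZMod p)) ZMod.val
  · intro n hn
    have h1 := mem_filter.1 (mem_coe.1 hn)
    exact mem_coe.2 (mem_filter.2 ⟨mem_univ _, (h n).1 h1.2⟩)
  · intro x hx
    have h1 := mem_filter.1 (mem_coe.1 hx)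
    exact mem_coe.2 (mem_filter.2 ⟨mem_range.2 (ZMod.val_lt x), (h _).2 (by rw [ZMod.natCast_zmod_val]; exact h1.2)⟩)
  · intro n hn
    have h1 := mem_filter.1 (mem_coe.1 hn)
    exact ZMod.val_cast_of_lt (mem_range.1 h1.1)
  · intro x _
    exact ZMod.natCast_zmod_val x

lemma sub_two_eq (z : ZMod 2) : z - 2 = z := by
  revert z
  decide

/-- The number of the zeros of `(N + t) (N + t + 2)` modulo `p`. -/
lemma card_roots {p : ℕ} (hp : p.Prime) (N : ℕ) :
    ((range p).filter (fun t : ℕ => (p : ℤ) ∣ ((N : ℤ) + t) * ((N : ℤ) + t + 2))).card = om p := by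
  classical
  have : Fact p.Prime := ⟨hp⟩
  have key : ∀ t : ℕ, (p : ℤ) ∣ ((N : ℤ) + t) * ((N : ℤ) + t + 2) ↔
      ((N : ZMod p) + (t : ZMod p)) * ((N : ZMod p) + t + 2) = 0 := by
    intro t
    rw [← ZMod.intCast_zmod_eq_zero_iff_dvd]
    push_cast
    rfl
  refine (card_range_zmod p (fun x : ZMod p => ((N : ZMod p) + x) * ((N : ZMod p) + x + 2) = 0) _ key).trans ?_
  have h1 : (univ.filter fun x : ZMod p => ((N : ZMod p) + x) * ((N : ZMod p) + x + 2) = 0) =
      {-(N : ZMod p), -(N : ZMod p) - 2} := by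
    ext x
    rw [mem_filter, mem_insert, mem_singleton]
    simp only [mem_univ, true_and, mul_eq_zero]
    constructor
    · rintro (h | h)
      · exact Or.inl (by linear_combination h)
      · exact Or.inr (by linear_combination h)
    · rintro (h | h)
      · exact Or.inl (by rw [h]; ring)
      · exact Or.inr (by rw [h]; ring)
  rw [h1, om]
  split_ifs with h2
  · subst h2
    rw [sub_two_eq, pair_eq_singleton, card_singleton]
  · rw [card_pair]
    intro h
    have h3 : (2 : ZMod p) = 0 := by linear_combination h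
    have h4 : ((2 : ℕ) : ZMod p) = 0 := by exact_mod_cast h3
    rw [ZMod.natCast_eq_zero_iff] at h4
    have := Nat.le_of_dvd (by norm_num) h4
    have := hp.two_le
    omega

open Pool.Agent.Y816.PD in
lemma density_eq (N y : ℕ) : WG (fun t : ℕ => ((N : ℤ) + t) * ((N : ℤ) + t + 2)) y = V y := by
  classical
  unfold WG V
  refine prod_congr rfl fun p hp => ?_
  rw [← card_roots (mem_filter.1 hp).2 N]

/-! ### One block of length `g ^ K` -/

lemma block (E : ℕ) :
    ∃ c : ℝ, 0 < c ∧ ∃ r₀ : ℕ, 2 ≤ r₀ ∧ ∀ r : ℕ, r₀ ≤ r → ∀ g : ℕ, 2 ≤ g → ∃ κ C : ℝ, 0 < κ ∧ 0 < C ∧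
      ∀ᶠ K : ℕ in atTop, ∀ N : ℕ, 1 ≤ N → (N + g ^ K + 2) ^ 2 ≤ g ^ (E * K) → ∀ A : ℕ → Finset ℕ, (∀ i < K, A i ⊆ range g) →
        (g : ℝ) ^ K ≤ Real.exp (c * K) * choices K A →
          ((∃ d ∈ A 0, (N + d).Coprime g ∧ (N + d + 2).Coprime g) →
            κ * choices K A * V (g ^ K) ≤ Pool.Agent.Y816.PD.ND g K A {t | (N + t).primeFactorsList.length ≤ r ∧
              (N + t + 2).primeFactorsList.length ≤ r ∧
              ∀ p : ℕ, p.Prime → p ∣ (N + t) * (N + t + 2) → g ^ K < p ^ r}) ∧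
          (Pool.Agent.Y816.PD.ND g K A {t | Twin (N + t)} : ℝ) ≤ C * choices K A * V (g ^ K) := by
  classical
  obtain ⟨c, hc, r0, hr0, h⟩ := Pool.Agent.Y816.PD.uni_fun 2 E (by norm_num)
  refine ⟨c, hc, r0, hr0, fun r hr g hg => ?_⟩
  obtain ⟨κ, C, hκ, hC, h1⟩ := h r hr g hg
  refine ⟨κ, C, hκ, hC, ?_⟩
  filter_upwards [h1] with K hK
  intro N hN1 hN A hA hprod
  have hNA : (choices K A : ℝ) = Pool.Agent.Y816.PD.NA K A := by
    unfold choices Pool.Agent.Y816.PD.NA
    push_cast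
    rfl
  obtain ⟨G, hG⟩ : ∃ G : ℕ → ℤ, G = fun t : ℕ => ((N : ℤ) + t) * ((N : ℤ) + t + 2) := ⟨_, rfl⟩
  have hGnat : ∀ t : ℕ, (G t).natAbs = (N + t) * (N + t + 2) := by
    intro t
    have : G t = (((N + t) * (N + t + 2) : ℕ) : ℤ) := by
      rw [hG]
      push_cast
      ring
    rw [this, Int.natAbs_natCast]
  obtain ⟨hlow, hup⟩ := hK G ⟨(Polynomial.C (N : ℤ) + Polynomial.X) * (Polynomial.C (N : ℤ) + Polynomial.X + 2), by
      compute_degree,
      fun t => by rw [hG]; simp⟩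
    (fun p hp => by
      by_contra hcon
      push Not at hcon
      have h3 := card_roots hp N
      have h4 : (range p).filter (fun t : ℕ => (p : ℤ) ∣ ((N : ℤ) + t) * ((N : ℤ) + t + 2)) = range p := by
        apply filter_true_of_mem
        intro t _
        have := hcon t
        rw [hG] at this
        exact this
      rw [h4, card_range, om] at h3
      have := hp.two_le
      split_ifs at h3 with h5 <;> omega)
    (fun t ht => by
      rw [hGnat t]
      refine le_trans ?_ hN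
      rw [sq]
      exact Nat.mul_le_mul (by omega) (by omega))
    A hA (by rw [← hNA]; exact hprod)
  rw [hG, density_eq, ← hNA, ← hG] at hlow hup
  constructor
  · rintro ⟨d, hd, hd1, hd2⟩
    have h3 := hlow ⟨d, hd, by
      rw [hGnat d]
      exact Nat.Coprime.mul_left hd1 hd2⟩
    refine h3.trans (Nat.cast_le.2 ?_)
    refine Pool.Agent.Y816.PD.ND_sub fun t ht hdig hn => ⟨hdig, ?_⟩
    obtain ⟨hn3, hn4⟩ := hn
    rw [hGnat t, (Nat.perm_primeFactorsList_mul (show N + t ≠ 0 by omega)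
      (show N + t + 2 ≠ 0 by omega)).length_eq, List.length_append] at hn4
    refine ⟨by omega, by omega, fun p hp hpd => hn3 p hp ?_⟩
    rw [← Int.dvd_natAbs, hGnat t]
    exact Int.natCast_dvd_natCast.2 hpd
  · refine le_trans (Nat.cast_le.2 ?_) hup
    refine Pool.Agent.Y816.PD.ND_sub fun t ht hdig hn => ⟨hdig, ?_⟩
    obtain ⟨hp1, hp2⟩ := hn
    intro p hp hpn
    rw [← Int.dvd_natAbs, hGnat t, Int.natCast_dvd_natCast] at hpn
    have h5 : t < p := by
      rcases (hp.dvd_mul).1 hpn with h6 | h6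
      · rw [(Nat.prime_dvd_prime_iff_eq hp hp1).1 h6]
        omega
      · rw [(Nat.prime_dvd_prime_iff_eq hp hp2).1 h6]
        omega
    exact h5.trans (lt_self_pow₀ hp.one_lt (by omega))

/-! ### The blocks between two cubes -/

lemma digit_block {g K a t i : ℕ} (hg : 2 ≤ g) (hi : i < K) : (a * g ^ K + t) / g ^ i % g = t / g ^ i % g := by
  obtain ⟨d, rfl⟩ : ∃ d, K = i + 1 + d := ⟨K - i - 1, by omega⟩
  have h1 : a * g ^ (i + 1 + d) + t = t + g ^ i * (a * g ^ d * g) := by ring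
  rw [h1, Nat.add_mul_div_left _ _ (Nat.pow_pos (by omega)), Nat.add_mul_mod_self_right]

open Pool.Agent.Y816.PD in
lemma block_le {n g K a : ℕ} (hg : 2 ≤ g) {A : ℕ → Finset ℕ} {P : ℕ → Prop} {S : Set ℕ}
    (h1 : n ^ 3 < a * g ^ K) (h2 : a * g ^ K + g ^ K + 1 < (n + 1) ^ 3) (hS : ∀ t < g ^ K, t ∈ S → P (a * g ^ K + t))
    [DecidablePred fun m => (m + 2 < (n + 1) ^ 3 ∧ HasDigits g K A m ∧ P m)] :
    ND g K A S ≤ (((Ioo (n ^ 3) ((n + 1) ^ 3)).filter fun m => m + 2 < (n + 1) ^ 3 ∧ HasDigits g K A m ∧ P m).filter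
      fun m => m / g ^ K = a).card := by
  classical
  unfold ND
  refine card_le_card_of_injOn (fun t => a * g ^ K + t) ?_ ?_
  · intro t ht
    rw [mem_coe, mem_filter, mem_range] at ht
    obtain ⟨ht1, ht2, ht3⟩ := ht
    rw [mem_coe, mem_filter, mem_filter, mem_Ioo]
    refine ⟨⟨⟨show n ^ 3 < a * g ^ K + t by omega, show a * g ^ K + t < (n + 1) ^ 3 by omega⟩,
      show a * g ^ K + t + 2 < (n + 1) ^ 3 by omega, fun i hi => ?_, hS t ht1 ht3⟩, ?_⟩
    · rw [digit_block hg hi]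
      exact ht2 i hi
    · show (a * g ^ K + t) / g ^ K = a
      rw [mul_comm, Nat.mul_add_div (by omega), Nat.div_eq_of_lt ht1, add_zero]
  · intro x _ y _ hxy
    simpa using hxy

open Pool.Agent.Y816.PD in
lemma le_block {n g K a : ℕ} (hg : 2 ≤ g) {A : ℕ → Finset ℕ} {P : ℕ → Prop} {S : Set ℕ}
    (hS : ∀ t < g ^ K, P (a * g ^ K + t) → t ∈ S)
    [DecidablePred fun m => (m + 2 < (n + 1) ^ 3 ∧ HasDigits g K A m ∧ P m)] :
    (((Ioo (n ^ 3) ((n + 1) ^ 3)).filter fun m => m + 2 < (n + 1) ^ 3 ∧ HasDigits g K A m ∧ P m).filter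
      fun m => m / g ^ K = a).card ≤ ND g K A S := by
  classical
  have hpos : 0 < g ^ K := Nat.pow_pos (by omega)
  unfold ND
  refine card_le_card_of_injOn (fun m => m % g ^ K) ?_ ?_
  · intro m hm
    rw [mem_coe, mem_filter, mem_filter, mem_Ioo] at hm
    obtain ⟨⟨_, _, hm2, hm3⟩, hm4⟩ := hm
    have h1 : m = a * g ^ K + m % g ^ K := by
      rw [← hm4, mul_comm]
      exact (Nat.div_add_mod m (g ^ K)).symm
    have h2 := Nat.mod_lt m hpos
    rw [mem_coe, mem_filter, mem_range]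
    refine ⟨h2, fun i hi => ?_, hS _ h2 (h1 ▸ hm3)⟩
    have h3 := hm2 i hi
    rw [h1, digit_block hg hi] at h3
    exact h3
  · intro x hx y hy hxy
    rw [mem_coe, mem_filter] at hx hy
    have h1 := Nat.div_add_mod x (g ^ K)
    have h2 := Nat.div_add_mod y (g ^ K)
    have h3 : x % g ^ K = y % g ^ K := hxy
    rw [hx.2] at h1
    rw [hy.2] at h2
    omega

/-- **Twin almost primes and twin primes between consecutive cubes with restricted digits.** -/
theorem result (E : ℕ) :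
    ∃ c : ℝ, 0 < c ∧ ∃ r₀ : ℕ, ∀ r : ℕ, r₀ ≤ r → ∀ g : ℕ, 2 ≤ g → ∃ κ C : ℝ, 0 < κ ∧ 0 < C ∧
      ∀ᶠ n : ℕ in atTop, ∀ K : ℕ, n ≤ g ^ (E * K) → g ^ K ≤ n ^ 2 → ∀ A : ℕ → Finset ℕ, (∀ i < K, A i ⊆ range g) →
        (g : ℝ) ^ K ≤ Real.exp (c * K) * choices K A →
          ((∃ d ∈ A 0, (d * (d + 2)).Coprime g) →
            κ * ((n : ℝ) ^ 2 / Real.log n ^ 2) * (choices K A / (g : ℝ) ^ K) ≤
              count n g K A fun m => AlmostPrime n r m ∧ AlmostPrime n r (m + 2)) ∧
          (count n g K A Twin : ℝ) ≤ C * ((n : ℝ) ^ 2 / Real.log n ^ 2) * (choices K A / (g : ℝ) ^ K) := by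
  classical
  obtain ⟨E', hE'⟩ : ∃ E', E' = E + 1 := ⟨_, rfl⟩
  obtain ⟨c, hc, r0, hr0, h⟩ := block (6 * E' + 1)
  obtain ⟨cV, CV, hcV, hCV, hV⟩ := V_log
  refine ⟨c, hc, r0 * E', fun r hr g hg => ?_⟩
  have hr1 : r0 ≤ r / E' := (Nat.le_div_iff_mul_le (by omega)).2 hr
  have hr2 : r / E' * E' ≤ r := Nat.div_mul_le_self r E'
  obtain ⟨r1, hr1'⟩ : ∃ r1, r1 = r / E' := ⟨_, rfl⟩
  rw [← hr1'] at hr1 hr2
  obtain ⟨κ, C, hκ, hC, h1⟩ := h r1 hr1 g hg
  obtain ⟨K0, hK0⟩ := eventually_atTop.1 h1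
  obtain ⟨x0, hx0⟩ := eventually_atTop.1 hV
  refine ⟨κ * (cV / 8), 9 * C * CV * E' ^ 2, by positivity, by subst hE'; positivity, ?_⟩
  filter_upwards [eventually_gt_atTop (g ^ (E' * (K0 + x0 + 7)) + 3)] with n hn
  intro K hK1 hK2 A hA hprod
  have hn3 : 3 < n := by omega
  have hK3 : n ≤ g ^ (E' * K) := hK1.trans (Nat.pow_le_pow_right (by omega) (by
    rw [hE']
    exact Nat.mul_le_mul_right _ (by omega)))
  have hK4 : K0 + x0 + 7 < K := by
    by_contra hcon
    have : g ^ (E' * K) ≤ g ^ (E' * (K0 + x0 + 7)) :=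
      Nat.pow_le_pow_right (by omega) (Nat.mul_le_mul_left _ (by omega))
    omega
  obtain ⟨q, hq⟩ : ∃ q, q = g ^ K := ⟨_, rfl⟩
  have h2q : 2 ^ K ≤ q := by
    rw [hq]
    exact Nat.pow_le_pow_left hg K
  have hKq : K < q := (Nat.lt_two_pow_self).trans_le h2q
  have h128 : 128 ≤ q := by
    calc 128 = 2 ^ 7 := by norm_num
      _ ≤ 2 ^ K := Nat.pow_le_pow_right (by norm_num) (by omega)
      _ ≤ q := h2q
  obtain ⟨hVl, hVu⟩ := hx0 q (by omega)
  have hQ : ((q : ℕ) : ℝ) = (g : ℝ) ^ K := by rw [hq]; push_cast; rfl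
  have hq0 : (0 : ℝ) < q := by exact_mod_cast (show 0 < q by omega)
  have hn0 : (0 : ℝ) < n := by exact_mod_cast (show 0 < n by omega)
  have hL : 0 < Real.log n := Real.log_pos (by exact_mod_cast (show 1 < n by omega))
  have hLq : 0 < Real.log q := Real.log_pos (by exact_mod_cast (show 1 < q by omega))
  have hL1 : Real.log q ≤ 2 * Real.log n := by
    have : ((q : ℕ) : ℝ) ≤ (n : ℝ) ^ 2 := by
      rw [hq]
      exact_mod_cast hK2
    calc Real.log q ≤ Real.log ((n : ℝ) ^ 2) := Real.log_le_log hq0 this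
      _ = 2 * Real.log n := by rw [Real.log_pow]; norm_num
  have hL2 : Real.log n ≤ E' * Real.log q := by
    have : (n : ℝ) ≤ (q : ℝ) ^ E' := by
      have h3 : n ≤ q ^ E' := by
        rw [hq, ← pow_mul, mul_comm K E']
        exact hK3
      exact_mod_cast h3
    calc Real.log n ≤ Real.log ((q : ℝ) ^ E') := Real.log_le_log hn0 this
      _ = E' * Real.log q := by rw [Real.log_pow]
  have hVl' : cV / (4 * Real.log n ^ 2) ≤ V q := by
    refine le_trans ?_ hVl
    refine div_le_div_of_nonneg_left hcV.le (by positivity) ?_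
    nlinarith
  have hVu' : V q ≤ CV * E' ^ 2 / Real.log n ^ 2 := by
    refine hVu.trans ?_
    rw [div_le_div_iff₀ (by positivity) (by positivity)]
    have h3 : Real.log n ^ 2 ≤ E' ^ 2 * Real.log q ^ 2 := by
      calc Real.log n ^ 2 ≤ (E' * Real.log q) ^ 2 := pow_le_pow_left₀ hL.le hL2 2
        _ = E' ^ 2 * Real.log q ^ 2 := by ring
    nlinarith
  have hV0 : 0 ≤ V q := (div_nonneg hcV.le (by positivity)).trans hVl'
  have hch : (0 : ℝ) ≤ choices K A := Nat.cast_nonneg _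
  have hqn : q ≤ n ^ 2 := by rw [hq]; exact hK2
  have hgq : g ∣ q := by
    rw [hq]
    exact dvd_pow_self g (by omega)
  have hsize : ∀ N : ℕ, N ≤ (n + 1) ^ 3 → (N + g ^ K + 2) ^ 2 ≤ g ^ ((6 * E' + 1) * K) := by
    intro N hN
    rw [← hq]
    have h3 : N + q + 2 ≤ 8 * n ^ 3 := by nlinarith
    calc (N + q + 2) ^ 2 ≤ (8 * n ^ 3) ^ 2 := Nat.pow_le_pow_left h3 2
      _ = 64 * n ^ 6 := by ring
      _ ≤ q * (g ^ (E' * K)) ^ 6 := Nat.mul_le_mul (by omega) (Nat.pow_le_pow_left hK3 6)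
      _ = g ^ ((6 * E' + 1) * K) := by
          rw [hq, ← pow_mul, ← pow_add]
          congr 1
          ring
  have hK0' := hK0 K (by omega)
  obtain ⟨a0, ha0⟩ : ∃ a0, a0 = n ^ 3 / q := ⟨_, rfl⟩
  have ha01 : a0 * q ≤ n ^ 3 := by rw [ha0]; exact Nat.div_mul_le_self _ _
  have ha02 : n ^ 3 < (a0 + 1) * q := by
    rw [ha0]
    rw [mul_comm]
    exact Nat.lt_mul_div_succ _ (by omega)
  have ha03 : 1 ≤ a0 := by
    rw [ha0]
    refine (Nat.le_div_iff_mul_le (by omega)).2 ?_
    nlinarith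
  constructor
  · rintro ⟨d, hd, hdg⟩
    obtain ⟨J, hJ⟩ : ∃ J, J = n ^ 2 / q := ⟨_, rfl⟩
    have hJ1 : J * q ≤ n ^ 2 := by rw [hJ]; exact Nat.div_mul_le_self _ _
    have hJ2 : n ^ 2 < (J + 1) * q := by
      rw [hJ]
      rw [mul_comm]
      exact Nat.lt_mul_div_succ _ (by omega)
    have hJ3 : 1 ≤ J := by
      rw [hJ]
      exact (Nat.le_div_iff_mul_le (by omega)).2 (by omega)
    have hJ4 : (n : ℝ) ^ 2 / (2 * q) ≤ J := by
      rw [div_le_iff₀ (by positivity)]
      have h3 : n ^ 2 ≤ J * (2 * q) := by nlinarith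
      exact_mod_cast h3
    obtain ⟨P, hP⟩ : ∃ P : ℕ → Prop, P = fun m => AlmostPrime n r m ∧ AlmostPrime n r (m + 2) := ⟨_, rfl⟩
    rw [← hP]
    have hcount : ∑ a ∈ Ico (a0 + 1) (a0 + 1 + J), κ * choices K A * V q ≤ count n g K A P := by
      unfold count
      calc ∑ a ∈ Ico (a0 + 1) (a0 + 1 + J), κ * choices K A * V q
          ≤ ∑ a ∈ Ico (a0 + 1) (a0 + 1 + J), ((((Ioo (n ^ 3) ((n + 1) ^ 3)).filter fun m => m + 2 < (n + 1) ^ 3 ∧
              HasDigits g K A m ∧ P m).filter fun m => m / g ^ K = a).card : ℝ) := by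
            refine sum_le_sum fun a ha => ?_
            rw [mem_Ico] at ha
            have ha1 : n ^ 3 < a * q := ha02.trans_le (Nat.mul_le_mul_right _ ha.1)
            have ha2 : a * q + q + 1 < (n + 1) ^ 3 := by
              have h3 : a * q ≤ (a0 + J) * q := Nat.mul_le_mul_right _ (by omega)
              have h4 : (n + 1) ^ 3 = n ^ 3 + 3 * n ^ 2 + 3 * n + 1 := by ring
              rw [h4]
              nlinarith
            have hN1 : 1 ≤ a * q := Nat.mul_pos (by omega) (by omega)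
            have hb := (hK0' (a * q) hN1 (hsize _ (by omega)) A hA hprod).1 ⟨d, hd, by
              obtain ⟨w, hw⟩ := hgq
              have e1 : a * q + d = d + g * (a * w) := by rw [hw]; ring
              rw [e1]
              exact (Nat.coprime_add_mul_left_left d g (a * w)).2 (Nat.Coprime.coprime_mul_right hdg), by
              obtain ⟨w, hw⟩ := hgq
              have e1 : a * q + d + 2 = (d + 2) + g * (a * w) := by rw [hw]; ring
              rw [e1]
              exact (Nat.coprime_add_mul_left_left (d + 2) g (a * w)).2 (Nat.Coprime.coprime_mul_left hdg)⟩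
            rw [← hq] at hb
            refine hb.trans (Nat.cast_le.2 ?_)
            refine block_le hg (by rw [← hq]; exact ha1) (by rw [← hq]; exact ha2) fun t ht hS => ?_
            rw [← hq, hP]
            obtain ⟨hS1, hS2, hS3⟩ := hS
            have hpp : ∀ p : ℕ, p.Prime → p ∣ (a * q + t) * (a * q + t + 2) → n < p ^ r := by
              intro p hp hpd
              calc n ≤ g ^ (E' * K) := hK3
                _ = q ^ E' := by rw [hq, ← pow_mul, mul_comm]
                _ < (p ^ r1) ^ E' := Nat.pow_lt_pow_left (hS3 p hp hpd) (by omega)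
                _ = p ^ (r1 * E') := by rw [← pow_mul]
                _ ≤ p ^ r := Nat.pow_le_pow_right hp.pos hr2
            have hr3 : r1 ≤ r := by
              rw [hr1']
              exact Nat.div_le_self _ _
            exact ⟨⟨by omega, fun p hp hpd => hpp p hp (Dvd.dvd.mul_right hpd _)⟩,
              ⟨by omega, fun p hp hpd => hpp p hp (Dvd.dvd.mul_left hpd _)⟩⟩
        _ = ((∑ a ∈ Ico (a0 + 1) (a0 + 1 + J), (((Ioo (n ^ 3) ((n + 1) ^ 3)).filter fun m => m + 2 < (n + 1) ^ 3 ∧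
              HasDigits g K A m ∧ P m).filter fun m => m / g ^ K = a).card : ℕ) : ℝ) := by
            push_cast
            rfl
        _ ≤ _ := by
            refine Nat.cast_le.2 ?_
            rw [sum_card_fiberwise_eq_card_filter]
            exact card_le_card (filter_subset _ _)
    refine le_trans ?_ hcount
    rw [sum_const, Nat.card_Ico, nsmul_eq_mul, ← hQ]
    have e1 : κ * (cV / 8) * ((n : ℝ) ^ 2 / Real.log n ^ 2) * (choices K A / q) =
        (n : ℝ) ^ 2 / (2 * q) * (κ * choices K A * (cV / (4 * Real.log n ^ 2))) := by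
      field_simp
      ring
    rw [e1]
    have e2 : a0 + 1 + J - (a0 + 1) = J := by omega
    rw [e2]
    refine mul_le_mul hJ4 ?_ (by positivity) (by positivity)
    exact mul_le_mul_of_nonneg_left hVl' (by positivity)
  · obtain ⟨a1, ha1⟩ : ∃ a1, a1 = (n + 1) ^ 3 / q := ⟨_, rfl⟩
    have ha11 : a1 * q ≤ (n + 1) ^ 3 := by rw [ha1]; exact Nat.div_mul_le_self _ _
    have ha12 : a0 ≤ a1 := by
      rw [ha0, ha1]
      exact Nat.div_le_div_right (Nat.pow_le_pow_left (by omega) 3)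
    have hcount : (count n g K A Twin : ℝ) ≤ ∑ a ∈ Icc a0 a1, C * choices K A * V q := by
      unfold count
      have e1 : ((Ioo (n ^ 3) ((n + 1) ^ 3)).filter fun m => m + 2 < (n + 1) ^ 3 ∧ HasDigits g K A m ∧ Twin m).card =
          ∑ a ∈ Icc a0 a1, (((Ioo (n ^ 3) ((n + 1) ^ 3)).filter fun m => m + 2 < (n + 1) ^ 3 ∧
            HasDigits g K A m ∧ Twin m).filter fun m => m / g ^ K = a).card := by
        refine card_eq_sum_card_fiberwise fun m hm => ?_
        rw [mem_coe, mem_filter, mem_Ioo] at hm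
        rw [mem_coe, mem_Icc, ha0, ha1, ← hq]
        exact ⟨Nat.div_le_div_right hm.1.1.le, Nat.div_le_div_right hm.1.2.le⟩
      rw [e1]
      push_cast
      refine sum_le_sum fun a ha => ?_
      rw [mem_Icc] at ha
      have h3 : a * q ≤ (n + 1) ^ 3 := (Nat.mul_le_mul_right _ ha.2).trans ha11
      have hb := (hK0' (a * q) (Nat.mul_pos (by omega) (by omega)) (hsize _ h3) A hA hprod).2
      rw [← hq] at hb
      refine le_trans (Nat.cast_le.2 ?_) hb
      refine le_block hg fun t ht hS => ?_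
      rw [← hq] at hS
      exact hS
    refine hcount.trans ?_
    rw [sum_const, Nat.card_Icc, nsmul_eq_mul, ← hQ]
    have hb1 : ((a1 + 1 - a0 : ℕ) : ℝ) ≤ 9 * (n : ℝ) ^ 2 / q := by
      rw [le_div_iff₀ hq0]
      have h3 : (a1 + 1 - a0) * q ≤ 9 * n ^ 2 := by
        have h4 : (a1 + 1 - a0) * q + a0 * q = a1 * q + q := by
          rw [← add_mul, Nat.sub_add_cancel (by omega)]
          ring
        have h5 : (n + 1) ^ 3 = n ^ 3 + 3 * n ^ 2 + 3 * n + 1 := by ring
        have h6 : (a0 + 1) * q = a0 * q + q := by ring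
        rw [h6] at ha02
        rw [h5] at ha11
        nlinarith
      exact_mod_cast h3
    have e1 : 9 * C * CV * E' ^ 2 * ((n : ℝ) ^ 2 / Real.log n ^ 2) * (choices K A / q) =
        9 * (n : ℝ) ^ 2 / q * (C * choices K A * (CV * E' ^ 2 / Real.log n ^ 2)) := by
      field_simp
    rw [e1]
    refine mul_le_mul hb1 ?_ (by positivity) (by positivity)
    exact mul_le_mul_of_nonneg_left hVu' (by positivity)

end Pool.Agent.Results.MP_d610d0_nt.RestrictedDigits
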