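import Pool.Agent.Q48.RD.Ends

/-!
# Two twin pairs of almost primes between consecutive cubes, at symmetric positions with restricted digits

For `n ≥ 5` let `b n` be the largest integer below `(n + 1) ^ 3` such that `n ^ 3 + b n` is divisible by `24`. We consider the two twin
pairs `(n ^ 3 + m, n ^ 3 + m + 2)` and `(b n - m - 2, b n - m)`, which are different and between `n ^ 3` and `(n + 1) ^ 3` for
`1 ≤ m`, `n ^ 3 + 2 (m + 2) < b n`.

Let `g ≥ 2` be a base and `K` a large number of digits. For every `i < K` let `A i` be an arbitrary set of digits, such that the number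
`|A 0| ⋯ |A (K - 1)|` of the integers `t < g ^ K` whose `i`-th digit belongs to `A i` for all `i < K` is at least `exp (- c K) g ^ K`
(`Rich`). Let `n` and `m₀ ≥ 1` be arbitrary with `(n + 1) ^ 3 ≤ g ^ (E K)` and `n ^ 3 + 2 (m₀ + g ^ K + 2) ≤ b n`, so that the length
`g ^ K` of the interval of the `m = m₀ + t` may be an arbitrarily small power of `n`.

The number of the `m = m₀ + t` with these `t` for which all four numbers have at most `r` prime factors, all larger than `g ^ (K / r)`,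
is at least `κ V |A 0| ⋯ |A (K - 1)|`, and also at least `κ |A 0| ⋯ |A (K - 1)| / K ^ 4`, unless there is an obvious obstruction (no
digit `d` in `A 0` such that the four numbers for `m₀ + d` are prime to `g`); the number of the `m = m₀ + t` with these `t` for which
both pairs are twin primes is at most `C V |A 0| ⋯ |A (K - 1)|`. Here `V` is the product of `1 - ν (p) / p` over the primes
`p ≤ g ^ K`, where `ν (p)` is the number of the `m` modulo `p` such that `p` divides one of the four numbers, the expected order. The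
constants do not depend on `n`, `m₀` and the sets `A i`.
-/

set_option autoImplicit false

namespace Pool.Agent.Results.MP_d610d0_nt.TwoAlmostTwinPairs

open Filter Finset
open Pool.Agent.Q315.RD Pool.Agent.Q48.RD

/-- The largest integer below `(n + 1) ^ 3` for which the sum with `n ^ 3` is divisible by `24`. -/
def b (n : ℕ) : ℕ := (n + 1) ^ 3 - 1 - (n ^ 3 + ((n + 1) ^ 3 - 1)) % 24

/-- All the numbers `n ^ 3 + m`, `n ^ 3 + m + 2`, `b n - m - 2`, `b n - m` have the property `Q`. -/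
def TwoPairs (n : ℕ) (Q : ℕ → Prop) (m : ℕ) : Prop :=
  (Q (n ^ 3 + m) ∧ Q (n ^ 3 + m + 2)) ∧ Q (b n - (m + 2)) ∧ Q (b n - m)

/-- The product of `1 - ν (p) / p` over the primes `p ≤ y`, `ν (p)` the number of the zeros modulo `p` of the product of the four
polynomials `n ^ 3 + X`, `n ^ 3 + 2 + X`, `b n - X`, `b n - 2 - X`. -/
noncomputable def V (n y : ℕ) : ℝ := endsV ![0, 2] (n ^ 3) (b n) y

lemma pairs_iff (n : ℕ) (Q : ℕ → Prop) (m : ℕ) : AtEnds ![0, 2] (n ^ 3) (b n) Q m ↔ TwoPairs n Q m := by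
  unfold AtEnds TwoPairs
  rw [Fin.forall_fin_two]
  simp only [Matrix.cons_val_zero, Matrix.cons_val_one, Matrix.cons_val_fin_one, Nat.add_zero]
  tauto

lemma b_sum (n : ℕ) (hn : 3 ≤ n) : (2 * 2).factorial ∣ n ^ 3 + b n := by
  have h1 : 27 ≤ n ^ 3 := by
    calc 27 = 3 ^ 3 := by norm_num
      _ ≤ n ^ 3 := Nat.pow_le_pow_left hn 3
  have h2 : n ^ 3 ≤ (n + 1) ^ 3 := Nat.pow_le_pow_left (Nat.le_succ n) 3
  have h3 : (2 * 2).factorial = 24 := by decide
  rw [h3]
  unfold b
  generalize (n + 1) ^ 3 = y at h2 ⊢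
  generalize n ^ 3 = x at h1 h2 ⊢
  omega

lemma adm (n : ℕ) (hn : 3 ≤ n) : AdmZ (endsA 2) (endsB ![0, 2] (n ^ 3) (b n)) := by
  refine ends_adm_sym _ _ _ (b_sum n hn) fun p hp => ?_
  by_cases h2 : p = 2
  · subst h2
    refine ⟨1, fun j => ?_⟩
    fin_cases j <;> norm_num
  · refine ⟨p - 1, fun j => ?_⟩
    have h3 : 3 ≤ p := by
      have := hp.two_le
      omega
    fin_cases j
    · simp only [Fin.zero_eta, Matrix.cons_val_zero, Nat.add_zero]
      intro h
      have := Nat.le_of_dvd (by omega) h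
      omega
    · simp only [Fin.mk_one, Matrix.cons_val_one, Matrix.cons_val_fin_one]
      intro h
      have h4 : p - 1 + 2 = p + 1 := by omega
      rw [h4] at h
      have h5 := (Nat.dvd_add_right (dvd_refl p)).1 h
      exact hp.one_lt.ne' (Nat.dvd_one.1 h5)

/-- **Two twin pairs of almost primes between consecutive cubes, at symmetric positions with restricted digits.** -/
theorem result (E : ℕ) :
    ∃ c : ℝ, 0 < c ∧ ∃ r₀ : ℕ, 2 ≤ r₀ ∧ ∀ r : ℕ, r₀ ≤ r → ∀ g : ℕ, 2 ≤ g → ∃ κ C : ℝ, 0 < κ ∧ 0 < C ∧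
      ∀ᶠ K : ℕ in atTop, ∀ n m₀ : ℕ, (n + 1) ^ 3 ≤ g ^ (E * K) → 1 ≤ m₀ → n ^ 3 + 2 * (m₀ + g ^ K + 2) ≤ b n →
        ∀ A : ℕ → Finset ℕ, Rich c g K A →
          ((∃ d ∈ A 0, TwoPairs n (fun l => l.Coprime g) (m₀ + d)) →
            κ * V n (g ^ K) * choices K A ≤ count g K A (fun t => TwoPairs n (AlmostPrime (g ^ K) r) (m₀ + t)) ∧
            κ * choices K A / (K : ℝ) ^ 4 ≤ count g K A (fun t => TwoPairs n (AlmostPrime (g ^ K) r) (m₀ + t))) ∧
          (count g K A (fun t => TwoPairs n Nat.Prime (m₀ + t)) : ℝ) ≤ C * V n (g ^ K) * choices K A := by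
  obtain ⟨c, hc, r₀, hr₀, h⟩ := ends ![0, 2] E
  refine ⟨c, hc, r₀, hr₀, fun r hr g hg => ?_⟩
  obtain ⟨κ, C, hκ, hC, h1⟩ := h r hr g hg
  refine ⟨κ, C, hκ, hC, ?_⟩
  filter_upwards [h1, eventually_ge_atTop 10] with K hK hK1
  intro n m₀ hnE _ hm A hA
  have hb : b n ≤ (n + 1) ^ 3 := by
    unfold b
    omega
  have hn : 3 ≤ n := by
    by_contra hcon
    push Not at hcon
    have h3 : (n + 1) ^ 3 ≤ 3 ^ 3 := Nat.pow_le_pow_left (by omega) 3
    have h4 : K < g ^ K := Nat.lt_pow_self (by omega)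
    have h5 : 2 ^ 10 ≤ g ^ K := (Nat.pow_le_pow_left hg 10).trans (Nat.pow_le_pow_right (by omega) hK1)
    omega
  have h2 := hK (n ^ 3) (b n) m₀ (hb.trans hnE) (fun j => by
    fin_cases j
    · simp only [Fin.zero_eta, Matrix.cons_val_zero]; omega
    · simp only [Fin.mk_one, Matrix.cons_val_one, Matrix.cons_val_fin_one]; omega) (adm n hn) A hA
  simp only [pairs_iff] at h2
  exact h2

end Pool.Agent.Results.MP_d610d0_nt.TwoAlmostTwinPairs
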